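import Mathlib

set_option autoImplicit false

namespace Pool.Agent.Results.MP_52c232_nt.AllOrders

open Matrix

theorem det_step {n : ℕ} (A : Matrix (Fin (n + 2)) (Fin (n + 2)) ℤ)
    (R : Matrix (Fin 2) (Fin (n + 2)) ℤ) (D : Matrix (Fin 2) (Fin 2) ℤ) :
    (fromBlocks A (A.submatrix id (Fin.castLE (by omega))) R D).det =
      A.det * (D - R.submatrix id (Fin.castLE (by omega))).det := by
  set S : Matrix (Fin (n + 2)) (Fin 2) ℤ :=
    (1 : Matrix (Fin (n + 2)) (Fin (n + 2)) ℤ).submatrix id (Fin.castLE (by omega)) with hS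
  have h1 : A * S = A.submatrix id (Fin.castLE (by omega)) := by
    ext i j; simp [hS, Matrix.mul_apply, Matrix.one_apply]
  have h2 : R * S = R.submatrix id (Fin.castLE (by omega)) := by
    ext i j; simp [hS, Matrix.mul_apply, Matrix.one_apply]
  have h3 : fromBlocks A (A * S) R D = fromBlocks A 0 R (D - R * S) * fromBlocks 1 S 0 1 := by
    simp [fromBlocks_multiply]
  rw [← h1, ← h2, h3, det_mul, det_fromBlocks_zero₁₂, det_fromBlocks_zero₂₁]
  simp

theorem step {n : ℕ} (A : Matrix (Fin (n + 2)) (Fin (n + 2)) ℤ) (h0 : ∀ i j, 2 ≤ A i j)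
    (h1 : A.det = 1) (h3 : (A.map (· ^ 3)).det = 1) :
    ∃ B : Matrix (Fin (n + 2 + 2)) (Fin (n + 2 + 2)) ℤ, (∀ i j, 2 ≤ B i j) ∧ B.det = 1 ∧
      (B.map (· ^ 3)).det = 1 := by
  let R : Matrix (Fin 2) (Fin (n + 2)) ℤ := Matrix.of fun i j =>
    if j.val = 0 then ![2, 3] i else ![21, 17] i
  let D : Matrix (Fin 2) (Fin 2) ℤ := !![5, 23; 4, 18]
  let C : Matrix (Fin (n + 2)) (Fin 2) ℤ := A.submatrix id (Fin.castLE (by omega))
  have hne : (Fin.castLE (by omega) (1 : Fin 2) : Fin (n + 2)) ≠ 0 := fun h => by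
    have := congrArg Fin.val h
    simp at this
  refine ⟨reindex finSumFinEquiv finSumFinEquiv (fromBlocks A C R D), ?_, ?_, ?_⟩
  · intro i j
    simp only [reindex_apply, submatrix_apply]
    rcases finSumFinEquiv.symm i with a | a <;> rcases finSumFinEquiv.symm j with b | b
    · exact h0 _ _
    · exact h0 _ _
    · simp only [fromBlocks_apply₂₁, R, of_apply]
      split_ifs <;> fin_cases a <;> simp
    · fin_cases a <;> fin_cases b <;> simp [D]
  · rw [det_reindex_self, det_step, h1, det_fin_two]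
    simp [R, D, hne]
  · have : (reindex finSumFinEquiv finSumFinEquiv (fromBlocks A C R D)).map (· ^ 3) =
        reindex finSumFinEquiv finSumFinEquiv (fromBlocks (A.map (· ^ 3))
          ((A.map (· ^ 3)).submatrix id (Fin.castLE (by omega))) (R.map (· ^ 3))
          (D.map (· ^ 3))) := by
      rw [reindex_apply, reindex_apply, ← submatrix_map, fromBlocks_map]
      rfl
    rw [this, det_reindex_self, det_step, h3, det_fin_two]
    simp [R, D, hne]

theorem result : ∀ n : ℕ, 4 ≤ n → ∃ A : Matrix (Fin n) (Fin n) ℤ,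
    (∀ i j, 2 ≤ A i j) ∧ A.det = 1 ∧ (A.map (· ^ 3)).det = 1 := by
  have key : ∀ m : ℕ, (∃ A : Matrix (Fin (m + 4)) (Fin (m + 4)) ℤ,
      (∀ i j, 2 ≤ A i j) ∧ A.det = 1 ∧ (A.map (· ^ 3)).det = 1) := by
    intro m
    induction m using Nat.twoStepInduction with
    | zero =>
      refine ⟨!![2, 2, 2, 3; 3, 2, 2, 4; 3, 3, 5, 3; 4, 5, 4, 7], by decide, by decide, by decide⟩
    | one =>
      refine ⟨!![2, 3, 3, 2, 2; 3, 4, 10, 4, 7; 3, 4, 5, 3, 2; 2, 3, 4, 3, 2; 3, 5, 4, 4, 3],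
        by decide, ?_, ?_⟩
      · simp [det_succ_row_zero, Fin.sum_univ_succ, Fin.succAbove]
      · simp [det_succ_row_zero, Fin.sum_univ_succ, Fin.succAbove]
    | more m ih _ =>
      obtain ⟨A, h0, h1, h3⟩ := ih
      exact step (n := m + 2) A h0 h1 h3
  intro n hn
  obtain ⟨m, rfl⟩ := Nat.exists_eq_add_of_le' hn
  exact key m

end Pool.Agent.Results.MP_52c232_nt.AllOrders
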